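import Pool.Agent.P.MP_8571ba_co.Final

/-!
The multiplier group of every cyclic planar difference set of order `p ^ 2 ^ j` is generated by
`p`, for all primes `p` outside a set of relative density zero.
-/

set_option autoImplicit false

namespace Pool.Agent.Results.MP_8571ba_co.AlmostAllPrimes

open Filter Topology

/-- The conjecture for the order `n`: for every cyclic planar difference set `D` of order `n`, the
multipliers of `D` are exactly the subgroup generated by the primes dividing `n`. -/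
def MultEq (n : ℕ) : Prop :=
  ∀ D : Finset (ZMod (n ^ 2 + n + 1)),
    D.card = n + 1 →
    (∀ x : ZMod (n ^ 2 + n + 1), x ≠ 0 →
      ∃! q : ZMod (n ^ 2 + n + 1) × ZMod (n ^ 2 + n + 1),
        q.1 ∈ D ∧ q.2 ∈ D ∧ q.1 - q.2 = x) →
    {t : (ZMod (n ^ 2 + n + 1))ˣ |
        ∃ s : ZMod (n ^ 2 + n + 1),
          D.image (fun d => (t : ZMod (n ^ 2 + n + 1)) * d) = D.image (fun d => d + s)}
      = ((Subgroup.closure
          {u : (ZMod (n ^ 2 + n + 1))ˣ |
            ∃ p : ℕ, p.Prime ∧ p ∣ n ∧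
              (u : ZMod (n ^ 2 + n + 1)) = (p : ZMod (n ^ 2 + n + 1))}) :
          Set (ZMod (n ^ 2 + n + 1))ˣ)

theorem result (j : ℕ) :
    Tendsto (fun N : ℕ =>
      (({p : ℕ | p ≤ N ∧ p.Prime ∧ MultEq (p ^ 2 ^ j)}.ncard : ℕ) : ℝ) / Nat.primeCounting N)
      atTop (𝓝 1) :=
  Pool.Agent.P.MP_8571ba_co.almost_all j

end Pool.Agent.Results.MP_8571ba_co.AlmostAllPrimes
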